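import Pool.Agent.H61.KU.TA

/-!
# Kuiper board, part A, row CEL: images of compact convex sets are cell-like
-/

open Topology Set
open Pool.Agent.H59 Pool.Agent.H64.LB

namespace Pool.Agent.H21.KU

open Pool.Agent.H61.KU

theorem pf_cel (hA : T_SLA) : T_CEL := by
  intro Y _ _ hP k
  induction k with
  | zero =>
    intro C h _ _ hne _ _
    have h1 : h '' C = {h 0} := by
      obtain ⟨x, hx⟩ := hne
      ext y
      constructor
      · rintro ⟨z, _, rfl⟩
        rw [Subsingleton.elim z 0]
        rfl
      · rintro rfl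
        exact ⟨x, hx, by rw [Subsingleton.elim x 0]⟩
    rw [h1]
    exact hP _
  | succ k ih =>
    intro C h hC hconv hne hcont hinj
    let t : Y → ℝ := fun y => (Function.invFunOn h C y) 0
    have ht : ∀ x ∈ C, t (h x) = x 0 := by
      intro x hx
      show (Function.invFunOn h C (h x)) 0 = x 0
      rw [hinj.leftInvOn_invFunOn hx]
    have hAc : IsCompact (h '' C) := hC.image_of_continuousOn hcont
    have ev0 : Continuous (fun x : Fin (k + 1) → ℝ => x 0) := continuous_apply 0
    have htc : ContinuousOn t (h '' C) := by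
      rw [continuousOn_iff_isClosed]
      intro K hK
      refine ⟨h '' (C ∩ {x | x 0 ∈ K}), ?_, ?_⟩
      · have h1 : IsCompact (C ∩ {x | x 0 ∈ K}) := hC.inter_right (hK.preimage ev0)
        exact (h1.image_of_continuousOn (hcont.mono inter_subset_left)).isClosed
      · ext y
        constructor
        · rintro ⟨h1, x, hx, rfl⟩
          have h2 : t (h x) ∈ K := h1
          rw [ht x hx] at h2
          exact ⟨⟨x, ⟨hx, h2⟩, rfl⟩, ⟨x, hx, rfl⟩⟩
        · rintro ⟨⟨x, ⟨hx, h2⟩, rfl⟩, _⟩
          refine ⟨?_, ⟨x, hx, rfl⟩⟩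
          show t (h x) ∈ K
          rw [ht x hx]
          exact h2
    obtain ⟨xa, hxa, hmin⟩ := hC.exists_isMinOn hne ev0.continuousOn
    obtain ⟨xb, hxb, hmax⟩ := hC.exists_isMaxOn hne ev0.continuousOn
    have hab : xa 0 ≤ xb 0 := hmin hxb
    refine hA Y (h '' C) t (xa 0) (xb 0) hAc htc hab ?_ ?_
    · rintro _ ⟨x, hx, rfl⟩
      rw [ht x hx]
      exact ⟨hmin hx, hmax hx⟩
    · intro c hc
      have hcons : Continuous (fun x' : Fin k → ℝ => (Fin.cons c x' : Fin (k + 1) → ℝ)) := by
        refine continuous_pi (fun i => ?_)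
        refine Fin.cases ?_ (fun j => ?_) i
        · simpa using continuous_const
        · simpa using continuous_apply j
      have htail : Continuous (fun x : Fin (k + 1) → ℝ => (Fin.tail x : Fin k → ℝ)) :=
        continuous_pi (fun j => continuous_apply j.succ)
      let D : Set (Fin k → ℝ) := {x' | (Fin.cons c x' : Fin (k + 1) → ℝ) ∈ C}
      have hDimg : D = (fun x : Fin (k + 1) → ℝ => (Fin.tail x : Fin k → ℝ)) ''
          (C ∩ {x | x 0 = c}) := by
        ext x'
        constructor
        · intro hx'
          exact ⟨Fin.cons c x', ⟨hx', by simp⟩, by simp⟩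
        · rintro ⟨x, ⟨hx, hx0⟩, rfl⟩
          show (Fin.cons c (Fin.tail x) : Fin (k + 1) → ℝ) ∈ C
          have h0 : x 0 = c := hx0
          rw [← h0, Fin.cons_self_tail]
          exact hx
      have hDc : IsCompact D := by
        rw [hDimg]
        exact (hC.inter_right (isClosed_eq ev0 continuous_const)).image htail
      have hDconv : Convex ℝ D := by
        intro x hx y hy p q hp hq hpq
        show (Fin.cons c (p • x + q • y) : Fin (k + 1) → ℝ) ∈ C
        have h1 : (Fin.cons c (p • x + q • y) : Fin (k + 1) → ℝ) =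
            p • (Fin.cons c x : Fin (k + 1) → ℝ) + q • (Fin.cons c y : Fin (k + 1) → ℝ) := by
          funext i
          refine Fin.cases ?_ (fun j => ?_) i
          · simp only [Fin.cons_zero, Pi.add_apply, Pi.smul_apply, smul_eq_mul]
            rw [← add_mul, hpq, one_mul]
          · simp
        rw [h1]
        exact hconv hx hy hp hq hpq
      have hDne : D.Nonempty := by
        have h1 := hconv.isPreconnected.intermediate_value hxa hxb ev0.continuousOn
        obtain ⟨x, hx, hx0⟩ := h1 hc
        refine ⟨Fin.tail x, ?_⟩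
        rw [hDimg]
        exact ⟨x, ⟨hx, hx0⟩, rfl⟩
      have hslice : {y | y ∈ h '' C ∧ t y = c} =
          (fun x' : Fin k → ℝ => h (Fin.cons c x')) '' D := by
        ext y
        constructor
        · rintro ⟨⟨x, hx, rfl⟩, hty⟩
          rw [ht x hx] at hty
          refine ⟨Fin.tail x, ?_, ?_⟩
          · show (Fin.cons c (Fin.tail x) : Fin (k + 1) → ℝ) ∈ C
            rw [← hty, Fin.cons_self_tail]
            exact hx
          · show h (Fin.cons c (Fin.tail x)) = h x
            rw [← hty, Fin.cons_self_tail]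
        · rintro ⟨x', hx', rfl⟩
          have hx'' : (Fin.cons c x' : Fin (k + 1) → ℝ) ∈ C := hx'
          refine ⟨⟨_, hx'', rfl⟩, ?_⟩
          show t (h (Fin.cons c x')) = c
          rw [ht _ hx'']
          simp
      rw [hslice]
      refine ih D _ hDc hDconv hDne ?_ ?_
      · exact hcont.comp hcons.continuousOn (fun x' hx' => hx')
      · intro x hx y hy hxy
        have h1 := hinj (show (Fin.cons c x : Fin (k + 1) → ℝ) ∈ C from hx)
          (show (Fin.cons c y : Fin (k + 1) → ℝ) ∈ C from hy) hxy
        exact (Fin.cons_right_injective (α := fun _ => ℝ) c) h1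

end Pool.Agent.H21.KU
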