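import Pool.Agent.H61.KU.TC

/-!
# Kuiper board, part C, row COL: a vertex `x` with `T ∪ {x}` a face is a coloop
-/

open Set

namespace Pool.Agent.H21.KU

open Pool.Agent.H61.KU

theorem pf_col (hF : T_FAC) (hR : T_ROT) (hS : T_SPN) (h6 : T_S6) (hA : T_ADJ) : T_COL := by
  intro ι W _ _ _ _ _ v E hW hE T x hT hx hT1
  obtain ⟨fu, -, fs, -, fr, fm, fins⟩ := hF ι W v
  have hTf : IsFace v T := (hE.face T hT).1
  have hTr : rk v T = 4 := (hE.face T hT).2
  have hru : rk v Finset.univ = 9 := by
    unfold rk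
    rw [hE.conf.span, finrank_top, hW]
  have hsing : ∀ y : ι, rk v {y} ≤ 1 := by
    intro y
    unfold rk sp
    rw [Finset.coe_singleton, Set.image_singleton]
    exact (finrank_span_le_card _).trans (by simp)
  have hr5 : rk v (insert x T) = 5 := by rw [fins T x hTf hx, hTr]
  -- adjacency
  have hadj : ∀ i, (i ∈ T ∨ (i ∉ insert x T ∧ IsFace v (insert i (insert x T)))) → Adj v x i := by
    rintro i (hi | ⟨hi, hif⟩)
    · exact hA ι W v E hW hE T x hT hx hT1 i hi
    · have hr6 : rk v (insert i (insert x T)) = 6 := by rw [fins _ i hT1 hi, hr5]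
      obtain ⟨y, hy, hyF, hyA⟩ := h6 ι W v E hW hE T x _ hT hx hT1 hif hr6
        (Finset.subset_insert _ _)
      have : i ∈ insert y (insert x T) := by
        rw [← hyF]
        exact Finset.mem_insert_self _ _
      rcases Finset.mem_insert.1 this with h | h
      · rw [h]; exact hyA
      · exact absurd h hi
  let S : Set ι := {i | i ∈ T ∨ (i ∉ insert x T ∧ IsFace v (insert i (insert x T)))}
  let H : Submodule ℝ W := Submodule.span ℝ (v '' S)
  have htop : (⊤ : Submodule ℝ W) ≤ H ⊔ Submodule.span ℝ {v x} := by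
    have h1 := hS ι W v (insert x T) Finset.univ hT1 fu (Finset.subset_univ _) (by
      intro F hFf hTF _ hrF
      obtain ⟨y, hy, hyF, -⟩ := h6 ι W v E hW hE T x F hT hx hT1 hFf (by rw [hrF, hr5]) hTF
      exact ⟨y, hy, hyF⟩)
    rw [hE.conf.span] at h1
    refine h1.trans ?_
    rw [Submodule.span_le]
    rintro _ ⟨i, hi, rfl⟩
    rcases hi with hi | ⟨-, hi, hif⟩
    · rcases Finset.mem_insert.1 hi with h | h
      · rw [h]
        exact Submodule.mem_sup_right (Submodule.mem_span_singleton_self _)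
      · exact Submodule.mem_sup_left (Submodule.subset_span ⟨i, Or.inl h, rfl⟩)
    · exact Submodule.mem_sup_left (Submodule.subset_span ⟨i, Or.inr ⟨hi, hif⟩, rfl⟩)
  have hH8 : 8 ≤ Module.finrank ℝ H := by
    have h1 : Module.finrank ℝ (⊤ : Submodule ℝ W) ≤
        Module.finrank ℝ (H ⊔ Submodule.span ℝ {v x} : Submodule ℝ W) :=
      Submodule.finrank_mono htop
    have h2 := Submodule.finrank_add_le_finrank_add_finrank H (Submodule.span ℝ {v x})
    have h3 : Module.finrank ℝ (Submodule.span ℝ ({v x} : Set W)) ≤ 1 :=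
      (finrank_span_le_card _).trans (by simp)
    rw [finrank_top, hW] at h1
    omega
  -- facets not containing `x`
  have hC : ∀ Φ : Finset ι, IsFace v Φ → rk v Φ = 8 → x ∉ Φ → H = sp v Φ := by
    intro Φ hΦ hΦ8 hxΦ
    refine Submodule.eq_of_le_of_finrank_le ?_ ?_
    · rw [Submodule.span_le]
      rintro _ ⟨i, hi, rfl⟩
      refine Submodule.subset_span ⟨i, ?_, rfl⟩
      rcases hadj i hi Φ hΦ hΦ8 with h | h
      · exact absurd h hxΦ
      · exact h
    · have : Module.finrank ℝ (sp v Φ) = 8 := hΦ8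
      omega
  have hD : ∀ z, z ≠ x → ∃ Φ : Finset ι, IsFace v Φ ∧ rk v Φ = 8 ∧ x ∉ Φ ∧ z ∈ Φ := by
    intro z hz
    obtain ⟨R, hRf, hzR, -, hRx, hRs⟩ := hR ι W v Finset.univ {x} {z} fu (hE.conf.single x)
      (hE.conf.single z) (Finset.subset_univ _) (Finset.subset_univ _)
    have hxR : x ∉ R := by
      intro h
      have : x ∈ R ∩ {x} := Finset.mem_inter.2 ⟨h, Finset.mem_singleton_self _⟩
      rw [hRx] at this
      have h2 := (Finset.mem_inter.1 this).1
      exact hz (Finset.mem_singleton.1 h2).symm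
    refine ⟨R, hRf, ?_, hxR, hzR (Finset.mem_singleton_self _)⟩
    have h1 : rk v R < 9 := by
      rw [← hru]
      refine fr R Finset.univ hRf ?_
      rw [Finset.ssubset_univ_iff]
      rintro rfl
      exact hxR (Finset.mem_univ _)
    have h2 := Submodule.finrank_add_le_finrank_add_finrank (sp v R) (sp v {x})
    rw [hRs] at h2
    have h3 : Module.finrank ℝ (sp v Finset.univ) = 9 := hru
    have h4 : Module.finrank ℝ (sp v {x}) ≤ 1 := hsing x
    have h5 : rk v R = Module.finrank ℝ (sp v R) := rfl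
    omega
  have hHall : ∀ z, z ≠ x → v z ∈ H := by
    intro z hz
    obtain ⟨Φ, h1, h2, h3, h4⟩ := hD z hz
    rw [hC Φ h1 h2 h3]
    exact Submodule.subset_span ⟨z, h4, rfl⟩
  have hTne : T.Nonempty := by
    rw [Finset.nonempty_iff_ne_empty]
    rintro rfl
    have : rk v ∅ = 0 := by
      unfold rk sp
      simp
    omega
  obtain ⟨z, hz⟩ := hTne
  obtain ⟨Φ, h1, h2, h3, -⟩ := hD z (by rintro rfl; exact hx hz)
  have hΦ : Φ = Finset.univ.erase x := by
    ext i
    simp only [Finset.mem_erase, Finset.mem_univ, and_true]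
    constructor
    · rintro hi rfl
      exact h3 hi
    · intro hi
      apply fs Φ i h1
      rw [← hC Φ h1 h2 h3]
      exact hHall i hi
  rw [← hΦ]
  exact ⟨h1, h2⟩

end Pool.Agent.H21.KU
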