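import Pool.Agent.H61.KU.TA

/-!
# Kuiper board, part A, row PRE: a map injective on `H_0` has a preconnected source
-/

open Topology Set
open Pool.Agent.H59 Pool.Agent.H64.LB

namespace Pool.Agent.H21.KU

open Pool.Agent.H61.KU

theorem pf_pre (hD : T_DU) (hH : T_H0) : T_PRE := by
  intro Y Z _ _ _ f hf
  rw [preconnectedSpace_iff_clopen]
  intro s hs
  by_contra hcon
  push Not at hcon
  obtain ⟨h1, h2⟩ := hcon
  obtain ⟨x, hx⟩ := h1
  have h3 : (sᶜ).Nonempty := by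
    rw [nonempty_iff_ne_empty]
    intro h
    exact h2 (compl_empty_iff.1 h)
  obtain ⟨y, hy⟩ := h3
  obtain ⟨ε, e1, e2, e3⟩ := hH (ZMod 2)
  let a : HH (ZMod 2) 0 ↥s := HH.point (ZMod 2) (⟨x, hx⟩ : ↥s)
  let b : HH (ZMod 2) 0 ↥(sᶜ) := HH.point (ZMod 2) (⟨y, hy⟩ : ↥(sᶜ))
  have ha : ε _ a = 1 := e1 _ _
  have hb : ε _ b = 1 := e1 _ _
  have hz : HH.map (ZMod 2) 0 (inc s) a + HH.map (ZMod 2) 0 (inc sᶜ) (-b) = 0 := by
    apply hf
    rw [map_zero]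
    apply (e3 Y).1
    rw [map_zero, e2, map_add, e2, e2, map_neg, ha, hb]
    decide
  have hinj := (hD (ZMod 2) Z s sᶜ hs.isOpen hs.compl.isOpen (union_compl_self s)
    (inter_compl_self s) 0).1
  have h4 : ((a, -b) : HH (ZMod 2) 0 ↥s × HH (ZMod 2) 0 ↥(sᶜ)) = (0, 0) := by
    apply hinj
    show HH.map (ZMod 2) 0 (inc s) a + HH.map (ZMod 2) 0 (inc sᶜ) (-b) =
      HH.map (ZMod 2) 0 (inc s) 0 + HH.map (ZMod 2) 0 (inc sᶜ) 0
    rw [hz, map_zero, map_zero, add_zero]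
  have h5 : a = 0 := congrArg Prod.fst h4
  rw [h5, map_zero] at ha
  exact absurd ha (by decide)

end Pool.Agent.H21.KU
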